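import Pool.Agent.Helper74.CA.Stmts

/-! # TLF: no fixed points on the abelianization -/

set_option autoImplicit false

namespace Pool.Agent.Helper74.CA

open Subgroup

open scoped commutatorElement

theorem tlf_gm2 (h1 : ST_COMM) (K : Type) [Group K] : gm K 2 = commutator K := by
  have h := (h1 K).2.1 1 le_rfl
  rw [(h1 K).2.2.2.1] at h
  exact h

theorem tlf_mem (h1 : ST_COMM) {K : Type} [Group K] (x : K) :
    x ∈ gm K 2 ↔ Abelianization.of x = 1 := by
  rw [tlf_gm2 h1, ← Abelianization.ker_of, MonoidHom.mem_ker]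

/-- the endomorphism `a - 1` of the abelianization -/
noncomputable def tlf_phi (K : Type) [Group K] (a : MulAut K) :
    Abelianization K →* Abelianization K :=
  Abelianization.map a.toMonoidHom / MonoidHom.id _

theorem tlf_phi_of (K : Type) [Group K] (a : MulAut K) (x : K) :
    tlf_phi K a (Abelianization.of x) = Abelianization.of (a x) / Abelianization.of x := by
  unfold tlf_phi
  rw [MonoidHom.div_apply, Abelianization.map_of, MonoidHom.id_apply]
  rfl

theorem tlf_surj (K : Type) [Group K] (a : MulAut K) (hg : Gen K a) :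
    Function.Surjective (tlf_phi K a) := by
  rw [← MonoidHom.range_eq_top, eq_top_iff]
  have h1 : (⊤ : Subgroup K) ≤ (tlf_phi K a).range.comap Abelianization.of := by
    rw [← hg, closure_le]
    rintro y ⟨x, rfl⟩
    rw [SetLike.mem_coe, mem_comap]
    refine ⟨Abelianization.of x, ?_⟩
    rw [tlf_phi_of, map_mul, map_inv, div_eq_mul_inv, mul_comm]
  intro q _
  obtain ⟨x, rfl⟩ : ∃ x, Abelianization.of x = q := QuotientGroup.mk_surjective q
  exact h1 (mem_top x)

theorem st_TLF (h1 : ST_COMM) : ST_TLF := by
  intro K _ _ a n _ hg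
  have hs := tlf_surj K a hg
  have hfin : Finite (Abelianization K) :=
    Finite.of_surjective (Abelianization.of : K → Abelianization K) QuotientGroup.mk_surjective
  have hi : Function.Injective (tlf_phi K a) := Finite.injective_iff_surjective.mpr hs
  refine ⟨fun x hx => ?_, fun x => ?_⟩
  · rw [tlf_mem h1, map_mul, map_inv] at hx
    rw [tlf_mem h1]
    apply hi
    rw [tlf_phi_of, map_one, div_eq_mul_inv]
    exact hx
  · obtain ⟨q, hq⟩ := hs (Abelianization.of x)
    obtain ⟨y, rfl⟩ : ∃ y, Abelianization.of y = q := QuotientGroup.mk_surjective q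
    refine ⟨y, ?_⟩
    rw [tlf_phi_of] at hq
    rw [tlf_mem h1, map_mul, map_inv, map_mul, map_inv, ← hq]
    rw [div_eq_mul_inv, mul_comm (Abelianization.of y)⁻¹, inv_mul_cancel]

end Pool.Agent.Helper74.CA
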